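import Pool.Agent.MWA.StmtsB

/-!
# Block MWA, row CNE: from identities between words to exchanges
-/

set_option autoImplicit false

namespace Pool.Agent.MWA.H7

open Pool.Agent.Helper14_MV Pool.Agent.Helper2_MV Pool.Agent.MVO Pool.Agent.MWL Pool.Agent.MWS

theorem toBt (hW : W2xStmt) {β : FIC} (hC : ClA β) {k : ℕ} {a b : ℕ → ℕ} {l l' : List ℕ}
    (h1 : w2 k a b (fun _ => false) = l) (h2 : w2 k a b (fun _ => true) = l')
    (ha : deg k a ≠ 1) (hb : deg k b ≠ 1) (hak : a k ≠ 0) (hbk : b k ≠ 0) (h : RR β l l') :
    Bt β k a b k := by
  refine hW β hC k a b k (fun _ => false) (fun _ => true) ha hb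
    ⟨le_refl k, hak, fun j h3 h4 => absurd h3 (by omega)⟩
    ⟨le_refl k, hbk, fun j h3 h4 => absurd h3 (by omega)⟩ Bool.false_ne_true ?_
  rw [h1, h2]
  exact h

/-- **CNE**. -/
theorem cne (hW : W2xStmt) : CneStmt := by
  intro β hC
  refine ⟨fun h => ?_, fun h => ?_, fun h => ?_, fun h => ?_, fun h => ?_, fun h => ?_,
    fun h => ?_, fun h => ?_, fun h => ?_⟩
  · exact toBt hW hC (by decide) (by decide) (by decide) (by decide) (by decide) (by decide) h
  · exact toBt hW hC (by decide) (by decide) (by decide) (by decide) (by decide) (by decide) h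
  · exact toBt hW hC (by decide) (by decide) (by decide) (by decide) (by decide) (by decide) h
  · exact toBt hW hC (by decide) (by decide) (by decide) (by decide) (by decide) (by decide) h
  · exact toBt hW hC (by decide) (by decide) (by decide) (by decide) (by decide) (by decide) h
  · exact toBt hW hC (by decide) (by decide) (by decide) (by decide) (by decide) (by decide) h
  · exact toBt hW hC (by decide) (by decide) (by decide) (by decide) (by decide) (by decide) h
  · exact toBt hW hC (by decide) (by decide) (by decide) (by decide) (by decide) (by decide) h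
  · exact toBt hW hC (by decide) (by decide) (by decide) (by decide) (by decide) (by decide) h

end Pool.Agent.MWA.H7
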