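import Pool.Agent.MWA.StmtsQ

/-!
# Block MWA, row FPR: the four systems over `x² t x ≈ x² t x^(n+1)`, period `n`
-/

set_option autoImplicit false

namespace Pool.Agent.MWA.H7

open Pool.Agent.Helper14_MV Pool.Agent.Helper2_MV Pool.Agent.MVO Pool.Agent.MWL Pool.Agent.MWS

/-- **FPR**. -/
theorem fpr (hSFQ : SfqStmt) (hCPN : CpnStmt) (hORN : OrnStmt) (h1 : Rp1Stmt) (h2 : Rp2Stmt)
    (h3 : Rp3Stmt) (h4 : Rp4Stmt) : FprStmt := by
  intro n β hB hR hS
  refine hSFQ n β hB (hORN n β hB.pos hB.ap (hCPN n β hB) hR) ?_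
  rcases hS with s | s | s | s
  · exact h1 n β hB hR s
  · exact h2 n β hB hR s
  · exact h3 n β hB hR s
  · exact h4 n β hB hR s

end Pool.Agent.MWA.H7
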