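import Pool.Agent.MWA.StmtsB

/-!
# Block MWA, row FSR: the four systems over `x² t x ≈ x² t x²`
-/

set_option autoImplicit false

namespace Pool.Agent.MWA.H7

open Pool.Agent.Helper14_MV Pool.Agent.Helper2_MV Pool.Agent.MVO Pool.Agent.MWL Pool.Agent.MWS

/-- **FSR**. -/
theorem fsr (hSFM : SfmStmt) (hICA : IcaStmt) (hOLR : OlrStmt) (hCNE : CneStmt)
    (hCNO : CnoStmt) (h1 : Ra1Stmt) (h2 : Ra2Stmt) (h3 : Ra3Stmt) (h4 : Ra4Stmt) : FsrStmt := by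
  intro β hB hR hS
  refine hSFM β hB (hOLR β (hICA β hB) hR) ?_
  obtain ⟨a1, c2, c4, -⟩ := hCNE β hB.cl
  obtain ⟨g, j3, j2, -⟩ := hCNO β hB.ap
  rcases hS with s | s | s | s
  · exact h1 β hB hR (j3 s.j).2.2.1 (g s.g)
  · exact h2 β hB hR (j2 s.j) (c2 s.c)
  · exact h3 β hB hR (a1 s.a)
  · exact h4 β hB hR (j3 s.j).2.2.1 (j3 s.j).2.2.2 (c4 s.c)

end Pool.Agent.MWA.H7
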